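import Pool.Agent.H65.AD.TargetsF

/-!
# Bounds for the coefficients of the first moment
-/

set_option autoImplicit false

open MeasureTheory Set Filter
open scoped Real

namespace Pool.Agent.H69.ADM

open Pool.Agent.H31.CN Pool.Agent.H95.AD Pool.Agent.H50.CN Pool.Agent.H65.AD

theorem mr_mul' {r n : ℕ} (h : Nat.Coprime r n) : mr (r * n) = mr r * mr n := by
  unfold mr
  rw [ArithmeticFunction.isMultiplicative_moebius.map_mul_of_coprime h]
  push_cast
  rfl

theorem mr_zero {r n : ℕ} (h : ¬ Nat.Coprime r n) : mr (r * n) = 0 := by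
  unfold mr
  rw [ArithmeticFunction.moebius_eq_zero_of_not_squarefree
    (fun h1 => h (Nat.squarefree_mul_iff.1 h1).1)]
  exact Int.cast_zero

/-- the sum over the multiples of `r` -/
theorem ztr (P : Polynomial ℝ) (M : ℝ) (N r : ℕ) (hM : 2 ≤ M) (hr : 1 ≤ r)
    (hrN : Nat.Coprime r N) (h : ℕ → ℝ) :
    ∑ m ∈ (Finset.Icc 1 ⌊M⌋₊).filter (fun m => r ∣ m), cm P M N m / m * h m =
      mr r / r * ∑ n ∈ (Finset.Icc 1 ⌊M / r⌋₊).filter (fun n => Nat.Coprime n (r * N)),
        mr n / n * P.eval (Real.log (M / r / n) / Real.log M) * h (r * n) := by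
  have hr0 : (0 : ℝ) < r := by exact_mod_cast hr
  have hM0 : (0 : ℝ) < M := by linarith
  have e1 : (Finset.Icc 1 ⌊M⌋₊).filter (fun m => r ∣ m) =
      (Finset.Icc 1 ⌊M / r⌋₊).image (fun n => r * n) := by
    ext m
    simp only [Finset.mem_filter, Finset.mem_Icc, Finset.mem_image]
    constructor
    · rintro ⟨⟨h1, h2⟩, ⟨n, rfl⟩⟩
      refine ⟨n, ⟨?_, ?_⟩, rfl⟩
      · rcases Nat.eq_zero_or_pos n with h3 | h3
        · subst h3
          omega
        · exact h3
      · rw [Nat.le_floor_iff (by positivity)] at h2 ⊢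
        rw [le_div_iff₀ hr0]
        push_cast at h2
        linarith
    · rintro ⟨n, ⟨h1, h2⟩, rfl⟩
      refine ⟨⟨Nat.mul_pos hr h1, ?_⟩, dvd_mul_right r n⟩
      rw [Nat.le_floor_iff (by positivity)] at h2 ⊢
      rw [le_div_iff₀ hr0] at h2
      push_cast
      linarith
  rw [e1, Finset.sum_image (fun x _ y _ hxy => Nat.eq_of_mul_eq_mul_left hr hxy),
    Finset.mul_sum, Finset.sum_filter]
  refine Finset.sum_congr rfl fun n hn => ?_
  obtain ⟨h1, h2⟩ := Finset.mem_Icc.1 hn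
  rw [Nat.le_floor_iff (by positivity), le_div_iff₀ hr0] at h2
  have hn0 : (0 : ℝ) < n := by exact_mod_cast h1
  have h3 : ((r * n : ℕ) : ℝ) ≤ M := by
    push_cast
    linarith
  have h4 : M / ((r * n : ℕ) : ℝ) = M / r / n := by
    push_cast
    rw [div_div]
  split_ifs with h5
  · obtain ⟨h6, h7⟩ := Nat.coprime_mul_iff_right.1 h5
    unfold cm
    rw [if_pos ⟨h3, Nat.Coprime.mul_left hrN h7⟩, mr_mul' h6.symm, h4]
    push_cast
    field_simp
  · have h6 : cm P M N (r * n) = 0 := by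
      unfold cm
      by_cases h7 : Nat.Coprime r n
      · rw [if_neg]
        rintro ⟨-, h8⟩
        exact h5 (Nat.coprime_mul_iff_right.2 ⟨h7.symm, Nat.Coprime.coprime_mul_left h8⟩)
      · rw [mr_zero h7]
        simp
    rw [h6, zero_div, zero_mul]

theorem ef_mul {r N : ℕ} (h : Nat.Coprime r N) : Ef (r * N) = Ef r * Ef N := by
  unfold Ef
  rw [h.primeFactors_mul, Finset.prod_union h.disjoint_primeFactors]

theorem ef_one (q : ℕ) : 1 ≤ Ef q := by
  unfold Ef
  have h1 : ∀ p ∈ q.primeFactors, (1 : ℝ) ≤ 1 + 30 / Real.sqrt p := by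
    intro p _
    have : 0 ≤ 30 / Real.sqrt p := by positivity
    linarith
  calc (1 : ℝ) = ∏ _p ∈ q.primeFactors, (1 : ℝ) := by rw [Finset.prod_const_one]
    _ ≤ _ := Finset.prod_le_prod (fun _ _ => zero_le_one) h1

/-- the product -/
noncomputable def Pq (q : ℕ) : ℝ := ∏ p ∈ q.primeFactors, (1 - 1 / (p : ℝ))⁻¹

theorem pq_mul {r N : ℕ} (h : Nat.Coprime r N) : Pq (r * N) = Pq r * Pq N := by
  unfold Pq
  rw [h.primeFactors_mul, Finset.prod_union h.disjoint_primeFactors]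

theorem pq_pos (q : ℕ) : 0 < Pq q := by
  unfold Pq
  refine Finset.prod_pos fun p hp => inv_pos.2 ?_
  have h1 : (2 : ℝ) ≤ p := by exact_mod_cast (Nat.prime_of_mem_primeFactors hp).two_le
  have h2 : 1 / (p : ℝ) ≤ 1 / 2 := one_div_le_one_div_of_le (by norm_num) h1
  linarith

theorem pq_le (q : ℕ) : Pq q ≤ Ef q := by
  unfold Pq Ef
  refine Finset.prod_le_prod (fun p hp => ?_) fun p hp => ?_
  · have h1 : (2 : ℝ) ≤ p := by exact_mod_cast (Nat.prime_of_mem_primeFactors hp).two_le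
    have h2 : 1 / (p : ℝ) ≤ 1 / 2 := one_div_le_one_div_of_le (by norm_num) h1
    exact inv_nonneg.2 (by linarith)
  · have h1 : (2 : ℝ) ≤ p := by exact_mod_cast (Nat.prime_of_mem_primeFactors hp).two_le
    have hp0 : (0 : ℝ) < p := by linarith
    have h2 : (1 - 1 / (p : ℝ))⁻¹ = 1 + 1 / (p - 1) := by
      have h3 : (p : ℝ) - 1 ≠ 0 := by
        have : 0 < (p : ℝ) - 1 := by linarith
        exact this.ne'
      field_simp
      ring
    rw [h2]
    have h4 : Real.sqrt p ≤ p := by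
      rw [Real.sqrt_le_left (by linarith)]
      nlinarith
    have h5 : 0 < Real.sqrt p := Real.sqrt_pos.2 hp0
    have h6 : 1 / ((p : ℝ) - 1) ≤ 30 / Real.sqrt p := by
      rw [div_le_div_iff₀ (by linarith) h5]
      nlinarith
    linarith

/-- the sums -/
noncomputable def Sk (q k : ℕ) (y : ℝ) : ℝ :=
  ∑ n ∈ (Finset.Icc 1 ⌊y⌋₊).filter (fun n => Nat.Coprime n q), mr n / n * Real.log (y / n) ^ k

theorem sk_bound (q j : ℕ) (y l C : ℝ) (hC : 0 < C) (hl : 0 < l) (hl3 : 1 + l ≤ 3 * l)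
    (hy0 : 0 ≤ Real.log y) (hyl : Real.log y ≤ l)
    (h : |Sk q (j + 2) y - Pq q * ((j + 2 : ℕ) : ℝ) * Real.log y ^ (j + 1)| ≤
      C * Ef q * (1 + Real.log y) ^ j) :
    |Sk q (j + 2) y| ≤ l ^ (j + 1) * (Pq q * ((j + 2 : ℕ) : ℝ) + C * 3 ^ (j + 2) * Ef q / l) := by
  have hE := ef_one q
  have hP := pq_pos q
  have h1 : |Sk q (j + 2) y| ≤ Pq q * ((j + 2 : ℕ) : ℝ) * Real.log y ^ (j + 1) +
      C * Ef q * (1 + Real.log y) ^ j := by
    have h2 : 0 ≤ Pq q * ((j + 2 : ℕ) : ℝ) * Real.log y ^ (j + 1) := by positivity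
    have h3 := abs_le.1 h
    rw [abs_le]
    constructor <;> linarith [h3.1, h3.2]
  have h4 : Real.log y ^ (j + 1) ≤ l ^ (j + 1) := pow_le_pow_left₀ hy0 hyl _
  have h5 : (1 + Real.log y) ^ j ≤ 3 ^ (j + 2) * l ^ j := by
    calc (1 + Real.log y) ^ j ≤ (3 * l) ^ j := pow_le_pow_left₀ (by linarith) (by linarith) _
      _ = 3 ^ j * l ^ j := mul_pow _ _ _
      _ ≤ 3 ^ (j + 2) * l ^ j := by
        refine mul_le_mul_of_nonneg_right ?_ (by positivity)
        exact pow_le_pow_right₀ (by norm_num) (by omega)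
  have h6 : l ^ (j + 1) * (Pq q * ((j + 2 : ℕ) : ℝ) + C * 3 ^ (j + 2) * Ef q / l) =
      Pq q * ((j + 2 : ℕ) : ℝ) * l ^ (j + 1) + C * Ef q * (3 ^ (j + 2) * l ^ j) := by
    rw [pow_succ]
    field_simp
  rw [h6]
  refine h1.trans (add_le_add ?_ ?_)
  · exact mul_le_mul_of_nonneg_left h4 (by positivity)
  · exact mul_le_mul_of_nonneg_left h5 (by positivity)

/-- the sums with a polynomial -/
theorem sp_eq (P : Polynomial ℝ) (q i : ℕ) (y l : ℝ) :
    ∑ n ∈ (Finset.Icc 1 ⌊y⌋₊).filter (fun n => Nat.Coprime n q),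
        mr n / n * P.eval (Real.log (y / n) / l) * Real.log (y / n) ^ i =
      ∑ k ∈ Finset.range (P.natDegree + 1), P.coeff k / l ^ k * Sk q (k + i) y := by
  unfold Sk
  simp only [Finset.mul_sum]
  rw [Finset.sum_comm]
  refine Finset.sum_congr rfl fun n _ => ?_
  rw [Polynomial.eval_eq_sum_range, Finset.mul_sum, Finset.sum_mul]
  refine Finset.sum_congr rfl fun k _ => ?_
  rw [div_pow, pow_add]
  ring

theorem sp_bound (P : Polynomial ℝ) (hP : Polynomial.X ^ 5 ∣ P) (q : ℕ) (y l : ℝ) (C : ℕ → ℝ)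
    (hC : ∀ k, 2 ≤ k → 0 < C k) (hl : 0 < l) (hl3 : 1 + l ≤ 3 * l)
    (hy0 : 0 ≤ Real.log y) (hyl : Real.log y ≤ l)
    (h : ∀ k, 2 ≤ k → |Sk q k y - Pq q * (k : ℝ) * Real.log y ^ (k - 1)| ≤
      C k * Ef q * (1 + Real.log y) ^ (k - 2)) (i : ℕ) :
    |∑ k ∈ Finset.range (P.natDegree + 1), P.coeff k / l ^ k * Sk q (k + i) y| * l ≤
      l ^ i * (Pq q * (∑ k ∈ Finset.range (P.natDegree + 1), |P.coeff k| * ((k + i : ℕ) : ℝ)) +
        Ef q / l * ∑ k ∈ Finset.range (P.natDegree + 1),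
          |P.coeff k| * (|C (k + i)| * 3 ^ (k + i))) := by
  have h1 : ∀ k ∈ Finset.range (P.natDegree + 1), |P.coeff k / l ^ k * Sk q (k + i) y| * l ≤
      l ^ i * (Pq q * (|P.coeff k| * ((k + i : ℕ) : ℝ)) +
        Ef q / l * (|P.coeff k| * (|C (k + i)| * 3 ^ (k + i)))) := by
    intro k _
    rcases Nat.lt_or_ge k 5 with hk | hk
    · rw [Polynomial.X_pow_dvd_iff.1 hP k hk]
      simp
    · obtain ⟨j, hj⟩ : ∃ j, k + i = j + 2 := ⟨k + i - 2, by omega⟩
      have h2 := h (j + 2) (by omega)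
      have h3 := sk_bound q j y l (C (j + 2)) (hC _ (by omega)) hl hl3 hy0 hyl h2
      rw [hj, abs_mul, abs_div, abs_of_pos (pow_pos hl k), abs_of_pos (hC (j + 2) (by omega))]
      have h4 : |P.coeff k| / l ^ k * |Sk q (j + 2) y| * l ≤ |P.coeff k| / l ^ k *
          (l ^ (j + 1) * (Pq q * ((j + 2 : ℕ) : ℝ) + C (j + 2) * 3 ^ (j + 2) * Ef q / l)) * l := by
        gcongr
      refine h4.trans (le_of_eq ?_)
      have h5 : l ^ (j + 1) * l = l ^ k * l ^ i := by
        rw [← pow_succ, ← pow_add, hj]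
      have h6 : (0 : ℝ) < l ^ k := pow_pos hl k
      calc |P.coeff k| / l ^ k *
          (l ^ (j + 1) * (Pq q * ((j + 2 : ℕ) : ℝ) + C (j + 2) * 3 ^ (j + 2) * Ef q / l)) * l
          = |P.coeff k| / l ^ k * (l ^ (j + 1) * l) *
            (Pq q * ((j + 2 : ℕ) : ℝ) + C (j + 2) * 3 ^ (j + 2) * Ef q / l) := by ring
        _ = |P.coeff k| * l ^ i *
            (Pq q * ((j + 2 : ℕ) : ℝ) + C (j + 2) * 3 ^ (j + 2) * Ef q / l) := by
            rw [h5]
            field_simp
        _ = _ := by ring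
  have h7 : |∑ k ∈ Finset.range (P.natDegree + 1), P.coeff k / l ^ k * Sk q (k + i) y| * l ≤
      ∑ k ∈ Finset.range (P.natDegree + 1), |P.coeff k / l ^ k * Sk q (k + i) y| * l := by
    rw [← Finset.sum_mul]
    exact mul_le_mul_of_nonneg_right (Finset.abs_sum_le_sum_abs _ _) hl.le
  refine h7.trans ((Finset.sum_le_sum h1).trans (le_of_eq ?_))
  rw [← Finset.mul_sum, Finset.sum_add_distrib, ← Finset.mul_sum, ← Finset.mul_sum]

theorem pf_ZCF (hBMU : T_BMU) : T_ZCF := by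
  intro P hP
  choose! C hC hB using hBMU
  set K0 : ℝ := ∑ k ∈ Finset.range (P.natDegree + 1), |P.coeff k| * ((k + 0 : ℕ) : ℝ) with hK0
  set K1 : ℝ := ∑ k ∈ Finset.range (P.natDegree + 1), |P.coeff k| * ((k + 1 : ℕ) : ℝ) with hK1
  set C0 : ℝ := ∑ k ∈ Finset.range (P.natDegree + 1),
    |P.coeff k| * (|C (k + 0)| * 3 ^ (k + 0)) with hC0
  set C1 : ℝ := ∑ k ∈ Finset.range (P.natDegree + 1),
    |P.coeff k| * (|C (k + 1)| * 3 ^ (k + 1)) with hC1
  have hK0n : 0 ≤ K0 := Finset.sum_nonneg fun k _ => by positivity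
  have hK1n : 0 ≤ K1 := Finset.sum_nonneg fun k _ => by positivity
  have hC0n : 0 ≤ C0 := Finset.sum_nonneg fun k _ => by positivity
  have hC1n : 0 ≤ C1 := Finset.sum_nonneg fun k _ => by positivity
  refine ⟨2 * K0 + K1 + 1, by positivity, fun N hN hNs => ?_⟩
  have hEN := ef_one N
  refine ⟨(2 * C0 + C1) * Ef N + 1, by positivity, fun M r hM hr hrN => ?_⟩
  have hr1 : 1 ≤ r := Nat.pos_of_ne_zero hr.ne_zero
  have hr0 : (0 : ℝ) < r := by exact_mod_cast hr1
  have hEr := ef_one r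
  have hPN := pq_pos N
  have hPN' : (∏ p ∈ N.primeFactors, (1 - 1 / (p : ℝ))⁻¹) = Pq N := rfl
  rw [hPN']
  set l : ℝ := Real.log M with hl
  have hl2 : Real.log 2 ≤ l := Real.log_le_log (by norm_num) hM
  have hlog2 := Real.log_two_gt_d9
  have hl0 : 0 < l := by linarith
  have hl3 : 1 + l ≤ 3 * l := by linarith
  rcases lt_or_ge M r with hrM | hrM
  · have h1 : (Finset.Icc 1 ⌊M⌋₊).filter (fun m => r ∣ m) = ∅ := by
      rw [Finset.filter_eq_empty_iff]
      intro m hm hrm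
      obtain ⟨h2, h3⟩ := Finset.mem_Icc.1 hm
      rw [Nat.le_floor_iff (by linarith)] at h3
      have h4 : (r : ℝ) ≤ m := by exact_mod_cast Nat.le_of_dvd h2 hrm
      linarith
    have h2 : A0 P M N r = 0 := by unfold A0; rw [h1, Finset.sum_empty]
    have h3 : A1 P M N r = 0 := by unfold A1; rw [h1, Finset.sum_empty]
    rw [h2, h3, abs_zero, zero_mul, zero_add]
    positivity
  · set q := r * N with hq
    set y := M / r with hy
    have hM0 : 0 < M := by linarith
    have hy1 : 1 ≤ y := by rw [hy, le_div_iff₀ hr0]; linarith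
    have hyM : y ≤ M := by
      rw [hy]
      exact div_le_self hM0.le (by exact_mod_cast hr1)
    have hy0 : 0 ≤ Real.log y := Real.log_nonneg hy1
    have hyl : Real.log y ≤ l := Real.log_le_log (by linarith) hyM
    have hBk : ∀ k, 2 ≤ k → |Sk q k y - Pq q * (k : ℝ) * Real.log y ^ (k - 1)| ≤
        C k * Ef q * (1 + Real.log y) ^ (k - 2) := fun k hk =>
      hB k hk q y (Nat.mul_pos hr1 hN) hy1
    have hb0 := sp_bound P hP q y l C hC hl0 hl3 hy0 hyl hBk 0
    have hb1 := sp_bound P hP q y l C hC hl0 hl3 hy0 hyl hBk 1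
    set S0 : ℝ := ∑ k ∈ Finset.range (P.natDegree + 1), P.coeff k / l ^ k * Sk q (k + 0) y
      with hS0
    set S1 : ℝ := ∑ k ∈ Finset.range (P.natDegree + 1), P.coeff k / l ^ k * Sk q (k + 1) y
      with hS1
    rw [← hK0, ← hC0, pow_zero, one_mul] at hb0
    rw [← hK1, ← hC1, pow_one, mul_comm l] at hb1
    have hb1' := le_of_mul_le_mul_right hb1 hl0
    have e0 : A0 P M N r = mr r / r * S0 := by
      have h1 := ztr P M N r hM hr1 hrN (fun _ => 1)
      simp only [mul_one] at h1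
      have h2 := sp_eq P q 0 y l
      simp only [pow_zero, mul_one] at h2
      unfold A0
      rw [h1, h2]
    have e1 : A1 P M N r = mr r / r * (l * S0 - S1) := by
      have h1 := ztr P M N r hM hr1 hrN (fun m => Real.log m)
      have h2 := sp_eq P q 0 y l
      simp only [pow_zero, mul_one] at h2
      have h3 := sp_eq P q 1 y l
      simp only [pow_one] at h3
      unfold A1
      rw [h1, hS0, hS1, ← h2, ← h3, Finset.mul_sum (a := l), ← Finset.sum_sub_distrib]
      congr 1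
      refine Finset.sum_congr rfl fun n hn => ?_
      have hn1 := (Finset.mem_Icc.1 (Finset.mem_filter.1 hn).1).1
      have hn0 : (0 : ℝ) < n := by exact_mod_cast hn1
      have h4 : Real.log ((r * n : ℕ) : ℝ) = l - Real.log (y / n) := by
        rw [hl, hy, Real.log_div (by positivity) hn0.ne', Real.log_div hM0.ne' hr0.ne']
        push_cast
        rw [Real.log_mul hr0.ne' hn0.ne']
        ring
      rw [h4]
      ring
    have hmr : |mr r| ≤ 1 := by
      unfold mr
      have := ArithmeticFunction.abs_moebius_le_one (n := r)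
      rw [← Int.cast_abs]
      exact_mod_cast this
    have hEq : Ef q = Ef r * Ef N := ef_mul hrN
    have hPq : Pq q = Pq r * Pq N := pq_mul hrN
    have hPr := pq_le r
    have hPr0 := pq_pos r
    have f0 : |A0 P M N r| * l ≤ 1 / r * (|S0| * l) := by
      rw [e0, abs_mul, abs_div, abs_of_pos hr0]
      have h1 : |mr r| / r ≤ 1 / r := div_le_div_of_nonneg_right hmr hr0.le
      have h2 : 0 ≤ |S0| * l := by positivity
      calc |mr r| / r * |S0| * l = |mr r| / r * (|S0| * l) := by ring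
        _ ≤ _ := mul_le_mul_of_nonneg_right h1 h2
    have f1 : |A1 P M N r| ≤ 1 / r * (|S0| * l + |S1|) := by
      rw [e1, abs_mul, abs_div, abs_of_pos hr0]
      have h1 : |mr r| / r ≤ 1 / r := div_le_div_of_nonneg_right hmr hr0.le
      have h2 : |l * S0 - S1| ≤ |S0| * l + |S1| := by
        calc |l * S0 - S1| ≤ |l * S0| + |S1| := abs_sub _ _
          _ = |S0| * l + |S1| := by rw [abs_mul, abs_of_pos hl0, mul_comm]
      exact mul_le_mul h1 h2 (abs_nonneg _) (by positivity)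
    have g0 : |S0| * l ≤ Ef r * (Pq N * K0 + Ef N * C0 / l) := by
      refine hb0.trans ?_
      rw [hPq, hEq]
      have h1 : Pq r * Pq N * K0 ≤ Ef r * Pq N * K0 := by gcongr
      calc Pq r * Pq N * K0 + Ef r * Ef N / l * C0 ≤ Ef r * Pq N * K0 + Ef r * Ef N / l * C0 :=
            add_le_add_left h1 _
        _ = _ := by ring
    have g1 : |S1| ≤ Ef r * (Pq N * K1 + Ef N * C1 / l) := by
      refine hb1'.trans ?_
      rw [hPq, hEq]
      have h1 : Pq r * Pq N * K1 ≤ Ef r * Pq N * K1 := by gcongr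
      calc Pq r * Pq N * K1 + Ef r * Ef N / l * C1 ≤ Ef r * Pq N * K1 + Ef r * Ef N / l * C1 :=
            add_le_add_left h1 _
        _ = _ := by ring
    have hfin : 1 / (r : ℝ) * (2 * (|S0| * l) + |S1|) ≤ 1 / (r : ℝ) *
        (2 * (Ef r * (Pq N * K0 + Ef N * C0 / l)) + Ef r * (Pq N * K1 + Ef N * C1 / l)) := by
      gcongr
    have hlast : 1 / (r : ℝ) * (2 * (Ef r * (Pq N * K0 + Ef N * C0 / l)) +
        Ef r * (Pq N * K1 + Ef N * C1 / l)) = Ef r / r * ((2 * K0 + K1) * Pq N +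
          ((2 * C0 + C1) * Ef N) / l) := by ring
    have hle : Ef r / r * ((2 * K0 + K1) * Pq N + ((2 * C0 + C1) * Ef N) / l) ≤
        Ef r / r * ((2 * K0 + K1 + 1) * Pq N + ((2 * C0 + C1) * Ef N + 1) / l) := by
      have h1 : (2 * K0 + K1) * Pq N ≤ (2 * K0 + K1 + 1) * Pq N :=
        mul_le_mul_of_nonneg_right (by linarith) hPN.le
      have h2 : ((2 * C0 + C1) * Ef N) / l ≤ ((2 * C0 + C1) * Ef N + 1) / l :=
        div_le_div_of_nonneg_right (by linarith) hl0.le
      exact mul_le_mul_of_nonneg_left (add_le_add h1 h2) (by positivity)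
    calc |A0 P M N r| * l + |A1 P M N r| ≤
          1 / r * (|S0| * l) + 1 / r * (|S0| * l + |S1|) := add_le_add f0 f1
      _ = 1 / (r : ℝ) * (2 * (|S0| * l) + |S1|) := by ring
      _ ≤ _ := hfin.trans (hlast.le.trans hle)

end Pool.Agent.H69.ADM
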