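import Pool.Agent.H65.AD.TargetsB

/-!
# Products of local factors are small powers
-/

set_option autoImplicit false

open MeasureTheory Set Filter
open scoped Real

namespace Pool.Agent.H69.ADM

open Pool.Agent.H31.CN Pool.Agent.H95.AD Pool.Agent.H50.CN Pool.Agent.H65.AD

theorem abs_prod (κ : ℝ) (c : ℕ) (hκ : 0 < κ) : ∃ C : ℝ, 0 < C ∧ ∀ w : ℕ, Squarefree w →
    (c : ℝ) ^ w.primeFactors.card * Ef w ^ 4 ≤ C * (w : ℝ) ^ κ := by
  set D : ℝ := (c + 1) * 31 ^ 4 with hD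
  have hc0 : (0 : ℝ) ≤ c := Nat.cast_nonneg c
  have hD1 : 1 ≤ D := by rw [hD]; nlinarith
  have ht : Tendsto (fun n : ℕ => (n : ℝ) ^ κ) atTop atTop :=
    (tendsto_rpow_atTop hκ).comp tendsto_natCast_atTop_atTop
  obtain ⟨p0, hp0⟩ := eventually_atTop.1 (ht.eventually_ge_atTop D)
  refine ⟨D ^ p0, by positivity, fun w hw => ?_⟩
  have h1 : (c : ℝ) ^ w.primeFactors.card * Ef w ^ 4 =
      ∏ p ∈ w.primeFactors, ((c : ℝ) * (1 + 30 / Real.sqrt p) ^ 4) := by
    rw [Finset.prod_mul_distrib, Finset.prod_const, Finset.prod_pow]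
    rfl
  have h2 : ∀ p ∈ w.primeFactors, (c : ℝ) * (1 + 30 / Real.sqrt p) ^ 4 ≤
      (if p < p0 then D else 1) * (p : ℝ) ^ κ := by
    intro p hp
    have hpp := Nat.prime_of_mem_primeFactors hp
    have hp1 : (1 : ℝ) ≤ p := by exact_mod_cast hpp.one_lt.le
    have h3 : (1 : ℝ) ≤ Real.sqrt p := by
      rw [← Real.sqrt_one]
      exact Real.sqrt_le_sqrt hp1
    have h4 : 30 / Real.sqrt p ≤ 30 := div_le_self (by norm_num) h3
    have h5 : 0 ≤ 30 / Real.sqrt p := by positivity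
    have h6 : (1 + 30 / Real.sqrt p) ^ 4 ≤ 31 ^ 4 := by
      refine pow_le_pow_left₀ (by linarith) (by linarith) 4
    have h7 : (c : ℝ) * (1 + 30 / Real.sqrt p) ^ 4 ≤ D := by
      rw [hD]
      refine mul_le_mul (by linarith) h6 (by positivity) (by linarith)
    have h8 : 1 ≤ (p : ℝ) ^ κ := Real.one_le_rpow hp1 hκ.le
    split_ifs with h9
    · nlinarith
    · rw [one_mul]
      exact h7.trans (hp0 p (by omega))
  rw [h1]
  refine (Finset.prod_le_prod (fun p _ => by positivity) h2).trans ?_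
  rw [Finset.prod_mul_distrib, Real.finset_prod_rpow _ _ (fun p _ => Nat.cast_nonneg p)]
  have h3 : (∏ p ∈ w.primeFactors, (p : ℝ)) = w := by
    rw [← Nat.cast_prod, Nat.prod_primeFactors_of_squarefree hw]
  rw [h3]
  refine mul_le_mul_of_nonneg_right ?_ (by positivity)
  rw [Finset.prod_ite, Finset.prod_const, Finset.prod_const_one, mul_one]
  refine pow_le_pow_right₀ hD1 ?_
  have h4 : (w.primeFactors.filter fun p => p < p0) ⊆ Finset.range p0 := by
    intro p hp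
    exact Finset.mem_range.2 (Finset.mem_filter.1 hp).2
  have h5 := Finset.card_le_card h4
  rwa [Finset.card_range] at h5

theorem pf_ABS : T_ABS := by
  intro κ c k B hκ hB
  obtain ⟨C, hC, hCw⟩ := abs_prod (κ / 2) c (by positivity)
  set a : ℝ := κ / (2 * (k + 1)) with ha
  have ha0 : 0 < a := by positivity
  refine ⟨C * (1 + B + 2 / a) ^ k, by positivity, fun w hw => ?_⟩
  have hw1 : (1 : ℝ) ≤ w := by
    exact_mod_cast Nat.pos_of_ne_zero hw.ne_zero
  have hw0 : (0 : ℝ) < w := by linarith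
  have h1 := hCw w hw
  have h2 : Real.log w ≤ (w : ℝ) ^ a / a := Real.log_le_rpow_div hw0.le ha0
  have h3 : 0 ≤ Real.log w := Real.log_nonneg hw1
  have h4 : 1 ≤ (w : ℝ) ^ a := Real.one_le_rpow hw1 ha0.le
  have h5 : 1 + B + 2 * Real.log w ≤ (1 + B + 2 / a) * (w : ℝ) ^ a := by
    have h6 : 2 * ((w : ℝ) ^ a / a) = 2 / a * (w : ℝ) ^ a := by ring
    nlinarith
  have h6 : (1 + B + 2 * Real.log w) ^ k ≤ (1 + B + 2 / a) ^ k * (w : ℝ) ^ (κ / 2) := by
    calc (1 + B + 2 * Real.log w) ^ k ≤ ((1 + B + 2 / a) * (w : ℝ) ^ a) ^ k :=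
          pow_le_pow_left₀ (by positivity) h5 k
      _ = (1 + B + 2 / a) ^ k * ((w : ℝ) ^ a) ^ k := mul_pow _ _ _
      _ ≤ (1 + B + 2 / a) ^ k * (w : ℝ) ^ (κ / 2) := by
        refine mul_le_mul_of_nonneg_left ?_ (by positivity)
        rw [← Real.rpow_natCast, ← Real.rpow_mul hw0.le]
        refine Real.rpow_le_rpow_of_exponent_le hw1 ?_
        rw [ha, div_mul_eq_mul_div, div_le_div_iff₀ (by positivity) (by norm_num)]
        have : (0 : ℝ) ≤ k := Nat.cast_nonneg k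
        nlinarith
  have h7 : (w : ℝ) ^ κ = (w : ℝ) ^ (κ / 2) * (w : ℝ) ^ (κ / 2) := by
    rw [← Real.rpow_add hw0]
    congr 1
    ring
  have h8 : 0 ≤ (c : ℝ) ^ w.primeFactors.card * Ef w ^ 4 := by
    have : 0 ≤ Ef w ^ 4 := by positivity
    positivity
  calc (c : ℝ) ^ w.primeFactors.card * Ef w ^ 4 * (1 + B + 2 * Real.log w) ^ k ≤
        (C * (w : ℝ) ^ (κ / 2)) * ((1 + B + 2 / a) ^ k * (w : ℝ) ^ (κ / 2)) :=
        mul_le_mul h1 h6 (by positivity) (h8.trans h1)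
    _ = C * (1 + B + 2 / a) ^ k * (w : ℝ) ^ κ := by rw [h7]; ring

end Pool.Agent.H69.ADM
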