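import Pool.Agent.H95.AD.TargetsU

/-!
# The inequality of Parseval for trigonometric sums with decaying coefficients
-/

set_option autoImplicit false

open MeasureTheory Set Filter
open scoped Real

namespace Pool.Agent.H69.AD

open Pool.Agent.H31.CN Pool.Agent.H95.AD

/-- the root of unity -/
noncomputable def zt (q : ℕ) : ℂ := Complex.exp (2 * π * Complex.I / q)

theorem zt_pow {q : ℕ} (hq : 1 ≤ q) (n : ℕ) : ee ((n : ℝ) / q) = zt q ^ n := by
  have hq0 : (q : ℂ) ≠ 0 := by exact_mod_cast (by omega : q ≠ 0)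
  unfold ee zt
  rw [← Complex.exp_nat_mul]
  congr 1
  push_cast
  field_simp

theorem zt_conj {q : ℕ} (hq : 1 ≤ q) (n : ℕ) : zt q ^ n * (starRingEnd ℂ) (zt q ^ n) = 1 := by
  have hp := Complex.isPrimitiveRoot_exp q (by omega)
  have h1 : ‖zt q‖ = 1 := hp.norm'_eq_one (by omega)
  rw [Complex.mul_conj, Complex.normSq_eq_norm_sq, norm_pow, h1, one_pow, one_pow]
  norm_num

theorem geo {q : ℕ} (hq : 1 ≤ q) (r r' : ℕ) (hr : r < q) (hr' : r' < q) (h : r ≠ r') :
    ∑ B ∈ Finset.range q, (zt q ^ r * (starRingEnd ℂ) (zt q ^ r')) ^ B = 0 := by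
  have hp : IsPrimitiveRoot (zt q) q := Complex.isPrimitiveRoot_exp q (by omega)
  set w := zt q ^ r * (starRingEnd ℂ) (zt q ^ r') with hw
  have h1 : w ≠ 1 := by
    intro h2
    apply h
    apply hp.pow_inj hr hr'
    have h3 : zt q ^ r' * w = zt q ^ r' := by rw [h2, mul_one]
    rw [hw, mul_left_comm, zt_conj hq, mul_one] at h3
    exact h3
  have h2 : w ^ q = 1 := by
    rw [hw, mul_pow, ← pow_mul, mul_comm r q, pow_mul, hp.pow_eq_one, one_pow, one_mul,
      ← map_pow, ← pow_mul, mul_comm r' q, pow_mul, hp.pow_eq_one, one_pow, map_one]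
  rw [geom_sum_eq h1, h2, sub_self, zero_div]

/-- Parseval for finite sums -/
theorem parseval {q : ℕ} (hq : 1 ≤ q) (a : ℕ → ℂ) :
    ∑ B ∈ Finset.range q, ‖∑ r ∈ Finset.range q, a r * zt q ^ (r * B)‖ ^ 2 =
      q * ∑ r ∈ Finset.range q, ‖a r‖ ^ 2 := by
  have h1 : ∀ z : ℂ, ((‖z‖ ^ 2 : ℝ) : ℂ) = z * (starRingEnd ℂ) z := by
    intro z
    rw [Complex.mul_conj, Complex.normSq_eq_norm_sq]
  have h2 : ((∑ B ∈ Finset.range q, ‖∑ r ∈ Finset.range q, a r * zt q ^ (r * B)‖ ^ 2 : ℝ) : ℂ) =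
      ((q * ∑ r ∈ Finset.range q, ‖a r‖ ^ 2 : ℝ) : ℂ) := by
    rw [Complex.ofReal_sum, Complex.ofReal_mul, Complex.ofReal_sum]
    calc ∑ B ∈ Finset.range q, ((‖∑ r ∈ Finset.range q, a r * zt q ^ (r * B)‖ ^ 2 : ℝ) : ℂ)
        = ∑ B ∈ Finset.range q, ∑ r ∈ Finset.range q, ∑ r' ∈ Finset.range q,
            (a r * (starRingEnd ℂ) (a r')) *
              (zt q ^ r * (starRingEnd ℂ) (zt q ^ r')) ^ B := by
          refine Finset.sum_congr rfl fun B _ => ?_
          rw [h1, map_sum, Finset.sum_mul]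
          refine Finset.sum_congr rfl fun r _ => ?_
          rw [Finset.mul_sum]
          refine Finset.sum_congr rfl fun r' _ => ?_
          rw [map_mul, mul_pow, ← pow_mul, ← map_pow, ← pow_mul]
          ring
      _ = ∑ r ∈ Finset.range q, ∑ r' ∈ Finset.range q, ∑ B ∈ Finset.range q,
            (a r * (starRingEnd ℂ) (a r')) *
              (zt q ^ r * (starRingEnd ℂ) (zt q ^ r')) ^ B := by
          rw [Finset.sum_comm]
          refine Finset.sum_congr rfl fun r _ => ?_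
          rw [Finset.sum_comm]
      _ = ∑ r ∈ Finset.range q, (q : ℂ) * ((‖a r‖ ^ 2 : ℝ) : ℂ) := by
          refine Finset.sum_congr rfl fun r hr => ?_
          rw [Finset.sum_eq_single_of_mem r hr]
          · rw [← Finset.mul_sum, zt_conj hq]
            simp only [one_pow, Finset.sum_const, Finset.card_range, nsmul_eq_mul, mul_one]
            rw [h1]
            ring
          · intro r' hr' hne
            rw [← Finset.mul_sum, geo hq r r' (Finset.mem_range.1 hr) (Finset.mem_range.1 hr')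
              (Ne.symm hne), mul_zero]
      _ = ((q : ℝ) : ℂ) * ∑ r ∈ Finset.range q, ((‖a r‖ ^ 2 : ℝ) : ℂ) := by
          rw [← Finset.mul_sum, Complex.ofReal_natCast]
  exact_mod_cast h2

/-- Cauchy-Schwarz for infinite sums -/
theorem cs_tsum (f g : ℕ → ℝ) (hf : Summable fun n => f n ^ 2) (hg : Summable fun n => g n ^ 2) :
    (Summable fun n => |f n * g n|) ∧
      (∑' n, f n * g n) ^ 2 ≤ (∑' n, f n ^ 2) * ∑' n, g n ^ 2 := by
  have h1 : Summable fun n => |f n * g n| := by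
    refine Summable.of_nonneg_of_le (fun n => abs_nonneg _) (fun n => ?_) (hf.add hg)
    rw [abs_mul]
    nlinarith [sq_nonneg (|f n| - |g n|), sq_abs (f n), sq_abs (g n), sq_nonneg (f n),
      sq_nonneg (g n)]
  refine ⟨h1, ?_⟩
  have h2 : Summable fun n => f n * g n := h1.of_abs
  set F := ∑' n, f n ^ 2 with hF
  set G := ∑' n, g n ^ 2 with hG
  set S := ∑' n, f n * g n with hS
  have hG0 : 0 ≤ G := tsum_nonneg fun n => sq_nonneg _
  have h3 : HasSum (fun n => (G * f n - S * g n) ^ 2) (G ^ 2 * F - 2 * G * S * S + S ^ 2 * G) := by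
    have h4 := ((hf.hasSum.mul_left (G ^ 2)).sub (h2.hasSum.mul_left (2 * G * S))).add
      (hg.hasSum.mul_left (S ^ 2))
    have h10 : (fun n => (G * f n - S * g n) ^ 2) =
        fun b => G ^ 2 * f b ^ 2 - 2 * G * S * (f b * g b) + S ^ 2 * g b ^ 2 := by
      funext x
      ring
    rw [h10]
    exact h4
  have h5 : 0 ≤ G * (G * F - S ^ 2) := by
    have h6 := h3.nonneg (fun n => sq_nonneg _)
    nlinarith
  rcases hG0.eq_or_lt with h0 | h0
  · have h7 : ∀ n, g n = 0 := by
      intro n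
      have h8 := hg.le_tsum n (fun m _ => sq_nonneg (g m))
      rw [← hG, ← h0] at h8
      exact pow_eq_zero_iff (two_ne_zero) |>.1 (le_antisymm h8 (sq_nonneg _))
    have h8 : S = 0 := by
      rw [hS]
      simp only [h7, mul_zero, tsum_zero]
    rw [h8, ← h0]
    norm_num
  · have h9 : 0 ≤ G * F - S ^ 2 := nonneg_of_mul_nonneg_right h5 h0
    nlinarith

/-- splitting a sum into residue classes -/
theorem split_tsum {E : Type} [NormedAddCommGroup E] [CompleteSpace E] {q : ℕ} (hq : 1 ≤ q)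
    (F : ℕ → E) (hF : Summable F) : (∀ r : ℕ, r < q → Summable fun j : ℕ => F (j * q + r)) ∧
      ∑' n, F n = ∑ r ∈ Finset.range q, ∑' j : ℕ, F (j * q + r) := by
  haveI : NeZero q := ⟨by omega⟩
  set e : ℕ ≃ Fin q × ℕ := (Nat.divModEquiv q).trans (Equiv.prodComm _ _) with he
  have h1 : ∀ p : Fin q × ℕ, e.symm p = p.2 * q + p.1 := fun p => rfl
  have h2 : Summable fun p : Fin q × ℕ => F (p.2 * q + p.1) := by
    have h3 := (e.symm.summable_iff (f := F)).2 hF
    exact h3
  refine ⟨fun r hr => ?_, ?_⟩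
  · exact h2.prod_factor (⟨r, hr⟩ : Fin q)
  · rw [← e.symm.tsum_eq F, Finset.sum_range]
    have h4 : (∑' p : Fin q × ℕ, F (e.symm p)) = ∑' p : Fin q × ℕ, F (p.2 * q + p.1) := rfl
    rw [h4, h2.tsum_prod, tsum_fintype]

theorem pf_PGB : T_PGB := by
  intro q κ α hq hκ hs
  have hq0 : (0 : ℝ) < q := by exact_mod_cast (by omega : 0 < q)
  set w : ℕ → ℝ := fun n => α n * Real.exp (κ * n / 2) with hw
  set v : ℕ → ℝ := fun n => Real.exp (-(κ * n / 2)) with hv
  have hw2 : ∀ n, w n ^ 2 = α n ^ 2 * Real.exp (κ * n) := by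
    intro n
    simp only [hw]
    rw [mul_pow, ← Real.exp_nat_mul]
    congr 2
    push_cast
    ring
  have hv2 : ∀ n, v n ^ 2 = Real.exp (-κ) ^ n := by
    intro n
    simp only [hv]
    rw [← Real.exp_nat_mul, ← Real.exp_nat_mul]
    congr 1
    push_cast
    ring
  have hwv : ∀ n, w n * v n = α n := by
    intro n
    simp only [hw, hv]
    rw [mul_assoc, ← Real.exp_add, add_neg_cancel, Real.exp_zero, mul_one]
  have hsw : Summable fun n => w n ^ 2 := by
    simp only [hw2]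
    exact hs
  have hsv : Summable fun n => v n ^ 2 := by
    simp only [hv2]
    exact summable_geometric_of_lt_one (Real.exp_pos _).le (by rw [Real.exp_lt_one_iff]; linarith)
  have hsa : Summable fun n : ℕ => |α n| := by
    have h1 := (cs_tsum w v hsw hsv).1
    simp only [hwv] at h1
    exact h1
  refine ⟨hsa, ?_⟩
  have hsa' : Summable α := hsa.of_abs
  obtain ⟨hr1, -⟩ := split_tsum hq α hsa'
  obtain ⟨hrw, hrw2⟩ := split_tsum hq (fun n => w n ^ 2) hsw
  obtain ⟨hrv, -⟩ := split_tsum hq (fun n => v n ^ 2) hsv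
  have hzq : zt q ^ q = 1 := (Complex.isPrimitiveRoot_exp q (by omega)).pow_eq_one
  have hzn : ‖zt q‖ = 1 := (Complex.isPrimitiveRoot_exp q (by omega)).norm'_eq_one (by omega)
  have e1 : ∀ B : ℕ, (∑' n : ℕ, (α n : ℂ) * ee ((n : ℝ) * B / q)) =
      ∑ r ∈ Finset.range q, ((∑' j : ℕ, α (j * q + r) : ℝ) : ℂ) * zt q ^ (r * B) := by
    intro B
    have h1 : ∀ n : ℕ, ee ((n : ℝ) * B / q) = zt q ^ (n * B) := by
      intro n
      rw [← zt_pow hq]
      push_cast
      rfl
    simp only [h1]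
    have h2 : Summable fun n : ℕ => (α n : ℂ) * zt q ^ (n * B) := by
      refine Summable.of_norm ?_
      simp only [norm_mul, norm_pow, hzn, one_pow, mul_one, Complex.norm_real, Real.norm_eq_abs]
      exact hsa
    rw [(split_tsum hq _ h2).2]
    refine Finset.sum_congr rfl fun r hr => ?_
    rw [Complex.ofReal_tsum, ← tsum_mul_right]
    refine tsum_congr fun j => ?_
    rw [add_mul, pow_add, mul_right_comm, mul_comm (j * B) q, pow_mul, hzq, one_pow, one_mul]
  simp only [e1]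
  rw [parseval hq, mul_assoc]
  refine mul_le_mul_of_nonneg_left ?_ hq0.le
  have e2 : (∑' n : ℕ, α n ^ 2 * Real.exp (κ * n)) =
      ∑ r ∈ Finset.range q, ∑' j : ℕ, w (j * q + r) ^ 2 := by
    rw [← hrw2]
    exact tsum_congr fun n => (hw2 n).symm
  rw [e2, Finset.mul_sum]
  refine Finset.sum_le_sum fun r hr => ?_
  have hr' := Finset.mem_range.1 hr
  rw [Complex.norm_real, Real.norm_eq_abs, sq_abs]
  have h1 := (cs_tsum (fun j => w (j * q + r)) (fun j => v (j * q + r)) (hrw r hr')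
    (hrv r hr')).2
  simp only [hwv] at h1
  refine h1.trans ?_
  rw [mul_comm]
  refine mul_le_mul_of_nonneg_right ?_ (tsum_nonneg fun n => sq_nonneg _)
  -- the geometric series
  have hx0 : (0 : ℝ) ≤ Real.exp (-(κ * q)) := (Real.exp_pos _).le
  have hκq : 0 < κ * q := mul_pos hκ hq0
  have hx1 : Real.exp (-(κ * q)) < 1 := by rw [Real.exp_lt_one_iff]; linarith
  have h2 : (∑' j : ℕ, v (j * q + r) ^ 2) ≤ ∑' j : ℕ, Real.exp (-(κ * q)) ^ j := by
    refine (hrv r hr').tsum_le_tsum (fun j => ?_) (summable_geometric_of_lt_one hx0 hx1)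
    rw [hv2, ← Real.exp_nat_mul, ← Real.exp_nat_mul, Real.exp_le_exp]
    push_cast
    nlinarith [hκ, (Nat.cast_nonneg r : (0 : ℝ) ≤ r)]
  refine h2.trans ?_
  rw [tsum_geometric_of_lt_one hx0 hx1]
  have h3 : κ * q + 1 ≤ Real.exp (κ * q) := Real.add_one_le_exp _
  have h4 : Real.exp (-(κ * q)) = (Real.exp (κ * q))⁻¹ := Real.exp_neg _
  have h5 : (0 : ℝ) < Real.exp (κ * q) := Real.exp_pos _
  have h6 : (1 - Real.exp (-(κ * q)))⁻¹ = 1 + 1 / (Real.exp (κ * q) - 1) := by
    have h7 : Real.exp (κ * q) - 1 ≠ 0 := by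
      have : 0 < Real.exp (κ * q) - 1 := by linarith
      exact this.ne'
    rw [h4]
    field_simp
    ring
  rw [h6]
  have h8 : 1 / (Real.exp (κ * q) - 1) ≤ 1 / (κ * q) :=
    one_div_le_one_div_of_le hκq (by linarith)
  linarith

end Pool.Agent.H69.AD
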